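import Pool.Agent.T6.H19.DW.Vojta

/-!
MP_4dacf8_ag, Q1: Vojta's height inequality with constant one, for all algebraic points on generic
determinantal varieties and on the complements of generic determinantal hypersurfaces.

Let `F` be the function field of a curve over an algebraically closed field `k` of characteristic
zero, and let `F0` be a subfield of `F` that is finitely generated over a subfield `k0` of `k`. Let
`V` be any projective variety over `F0` of dimension at most `m`, for example the projective space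
itself, or a singular variety. For `a` in a finite set `A` let `M a` be a matrix with `r a` rows and
`s a ≤ r a` columns of forms of degree `d a` over `F`, and for `b` in a finite set `B` let `G b` be
a square matrix of size `t b` of forms of degree `e b` over `F`. The coefficients of all the entries
of all the matrices together are algebraically independent over `F0`. For example, `k0` is
countable, `k` is the field of the complex numbers, and the matrices are very general.

Then there is a constant `C` such that for all finite extensions `L` of `F` and all points `x` of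
`V` over `L`,

`(Σ_a w a + Σ_b w b - 2 m - 1) h(x) ≤ N1(x) + 2 g(L) - 2 + C [L : F]`,

where `h(x)` is the height of `x` relative to `L`, `2 g(L) - 2` is the canonical degree of `L`,

* `w a = (s a - ρ) (r a d a + r a - ρ)` if `ρ` is the rank of `M a` at `x`,
* `w b = (t b - ρ) (t b e b + t b - ρ)` if `ρ < t b` is the rank of `G b` at `x`, and `w b = t b e b`
  if the determinant of `G b` does not vanish at `x`,
* `N1(x)` is the number of places of `L` at which one of the determinants of the `G b` that do not
  vanish at `x` vanishes, each place being counted once.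

Hence the inequality of Q1 holds, without exceptional points, for `X` the subvariety of `V` on which
the matrices `M a` have rank at most `ρ a`, and `D` the boundary that is given by the determinants
of the matrices `G b`, as soon as `Σ_a (s a - ρ a) (r a d a + r a - ρ a) + Σ_b t b e b ≥ 2 m + 2`.
The variety `X` has codimension `Σ_a (s a - ρ a) (r a - ρ a)` in `V`, it is in general not a complete
intersection, and `X` and the hypersurfaces of `D` are in general singular.
-/

set_option autoImplicit false

namespace Pool.Agent.Results.MP_4dacf8_ag.DeterminantalPairs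

open FF MvPolynomial Pool.Agent.W603.LV Pool.Agent.W603.PV Pool.Agent.W603.CZ
  Pool.Agent.TH145.MG

/-- The field `F0` is finitely generated over `k0`. -/
def FinGen (k0 F0 : Type) [Field k0] [Field F0] [Algebra k0 F0] : Prop :=
  ∃ S : Finset F0, IntermediateField.adjoin k0 (S : Set F0) = ⊤

/-- The matrices `M a` of forms of degrees `d a` and the square matrices `G b` of forms of degrees
`e b` have coefficients that are all together algebraically independent over `F0`. -/
structure Generic {F A B : Type} (F0 : Type) [Field F0] [Field F] [Algebra F0 F] {n : ℕ}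
    {r s : A → ℕ} {t : B → ℕ}
    (M : ∀ a, Matrix (Fin (r a)) (Fin (s a)) (MvPolynomial (Fin (n + 1)) F)) (d : A → ℕ)
    (G : ∀ b, Matrix (Fin (t b)) (Fin (t b)) (MvPolynomial (Fin (n + 1)) F)) (e : B → ℕ) :
    Prop where
  homM : ∀ a i j, (M a i j).IsHomogeneous (d a)
  homG : ∀ b i j, (G b i j).IsHomogeneous (e b)
  indep : AlgebraicIndependent F0 (Sum.elim
    (fun p : (a : A) × ((Fin (r a) × Fin (s a)) × {I : Fin (n + 1) →₀ ℕ // I.degree = d a}) =>
      (M p.1 p.2.1.1 p.2.1.2).coeff p.2.2.1)
    (fun p : (b : B) × ((Fin (t b) × Fin (t b)) × {I : Fin (n + 1) →₀ ℕ // I.degree = e b}) =>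
      (G p.1 p.2.1.1 p.2.1.2).coeff p.2.2.1))

/-- The point `x` with coordinates in the field `L` satisfies the equations `f = 0`, `f ∈ V`, with
coefficients in the subfield `F0`. -/
def On {F0 F L : Type} [Field F0] [Field F] [Field L] [Algebra F0 F] [Algebra F L] {n : ℕ}
    (V : Set (MvPolynomial (Fin (n + 1)) F0)) (x : Fin (n + 1) → L) : Prop :=
  ∀ f ∈ V, aeval x (map (algebraMap F0 F) f) = 0

/-- The rank of the matrix `M` at the point `x`. -/
noncomputable def rk {F L : Type} [Field F] [Field L] [Algebra F L] {n r s : ℕ}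
    (M : Matrix (Fin r) (Fin s) (MvPolynomial (Fin (n + 1)) F)) (x : Fin (n + 1) → L) : ℕ :=
  (Matrix.of fun i j => aeval x (M i j)).rank

/-- The weight of a matrix with `r` rows and `s ≤ r` columns of forms of degree `d` that has rank
`ρ`. -/
def wt (r s d ρ : ℕ) : ℕ := (s - ρ) * (r * d + (r - ρ))

open Pool.Agent.T6.H19.DW

open scoped Classical in
theorem result {k0 k F0 F : Type} [Field k0] [Field k] [Field F0] [Field F] [IsAlgClosed k]
    [CharZero k] [Algebra k0 k] [Algebra k F] [Algebra k0 F] [IsScalarTower k0 k F]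
    [Algebra k0 F0] [Algebra F0 F] [IsScalarTower k0 F0 F] [IsFF k F] (hfg : FinGen k0 F0)
    {n m : ℕ} (V : Set (MvPolynomial (Fin (n + 1)) F0)) (hV : DimLE F0 V m)
    -- the matrices with few columns, and the square matrices
    {A B : Type} [Fintype A] [Fintype B] {r s d : A → ℕ} {t e : B → ℕ} (hsr : ∀ a, s a ≤ r a)
    (M : ∀ a, Matrix (Fin (r a)) (Fin (s a)) (MvPolynomial (Fin (n + 1)) F))
    (G : ∀ b, Matrix (Fin (t b)) (Fin (t b)) (MvPolynomial (Fin (n + 1)) F))
    (hgen : Generic F0 M d G e) :
    ∃ C : ℕ, ∀ (L : Type) [Field L] [Algebra k L] [Algebra F L] [IsScalarTower k F L]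
      [FiniteDimensional F L] (x : Fin (n + 1) → L), x ≠ 0 → On (F := F) V x →
      (∑ a, (wt (r a) (s a) (d a) (rk (M a) x) : ℤ) +
        ∑ b, (if aeval x (G b).det = 0 then (wt (t b) (t b) (e b) (rk (G b) x) : ℤ)
          else t b * e b) - 2 * m - 1) * pht k x ≤
        (meetsAny (k := k) (fun b : {b // aeval x (G b).det ≠ 0} => (G b).det)
          (fun b => t b * e b) x).ncard + canDeg k L + C * Module.finrank F L := by
  have hcF : ∀ (m : ℕ) (i : Fintype (Fin m)), @Fintype.card (Fin m) i = m := fun m i => by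
    convert Fintype.card_fin m
  obtain ⟨H, hHa, hHb⟩ : ∃ H : Ib (fun c : A ⊕ B => Fin (Sum.elim r t c))
      (fun c => Fin (Sum.elim s t c)) → MvPolynomial (Fin (n + 1)) F,
      (∀ a i j, H ⟨Sum.inl a, (i, j)⟩ = M a i j) ∧
      ∀ b i j, H ⟨Sum.inr b, (i, j)⟩ = G b i j := by
    refine ⟨fun q => match q with
      | ⟨Sum.inl a, p⟩ => M a p.1 p.2
      | ⟨Sum.inr b, p⟩ => G b p.1 p.2, fun _ _ _ => rfl, fun _ _ _ => rfl⟩
  obtain ⟨C, hC⟩ := vojta_det (k0 := k0) (k := k) hfg V hV
    (R := fun c : A ⊕ B => Fin (Sum.elim r t c)) (S := fun c => Fin (Sum.elim s t c))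
    (fun c => by
      rcases c with a | b
      · exact ((hcF (s a) _).le.trans (hsr a)).trans (hcF (r a) _).ge
      · exact (hcF (t b) _).le.trans (hcF (t b) _).ge) H (Sum.elim d e) (fun p => by
      rcases p with ⟨a | b, i, j⟩
      · rw [hHa]
        exact hgen.homM a i j
      · rw [hHb]
        exact hgen.homG b i j) (by
      have h1 := hgen.indep.comp (fun p : (q : Ib (fun c : A ⊕ B => Fin (Sum.elim r t c))
        (fun c => Fin (Sum.elim s t c))) × {I : Fin (n + 1) →₀ ℕ //
          I.degree = db _ _ (Sum.elim d e) q} => (match p with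
        | ⟨⟨Sum.inl a, ij⟩, I⟩ => Sum.inl ⟨a, (ij, I)⟩
        | ⟨⟨Sum.inr b, ij⟩, I⟩ => Sum.inr ⟨b, (ij, I)⟩ :
        ((a : A) × ((Fin (r a) × Fin (s a)) × {I : Fin (n + 1) →₀ ℕ // I.degree = d a})) ⊕
        ((b : B) × ((Fin (t b) × Fin (t b)) × {I : Fin (n + 1) →₀ ℕ // I.degree = e b})))) (by
          rintro ⟨⟨a | b, ij⟩, I⟩ ⟨⟨a' | b', ij'⟩, I'⟩ h
          · simp only [Sum.inl.injEq, Sigma.mk.injEq] at h
            obtain ⟨rfl, h⟩ := h
            simp only [heq_eq_eq] at h
            obtain ⟨rfl, rfl⟩ := h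
            rfl
          · simp at h
          · simp at h
          · simp only [Sum.inr.injEq, Sigma.mk.injEq] at h
            obtain ⟨rfl, h⟩ := h
            simp only [heq_eq_eq] at h
            obtain ⟨rfl, rfl⟩ := h
            rfl)
      convert h1 using 1
      funext ⟨⟨c, ij⟩, I⟩
      rcases c with a | b
      · simp only [Function.comp_apply, Sum.elim_inl]
        rw [hHa]
      · simp only [Function.comp_apply, Sum.elim_inr]
        rw [hHb])
  refine ⟨C, fun L _ _ _ _ _ x hx hxV => ?_⟩
  obtain ⟨N, hN⟩ : ∃ N : ∀ c : A ⊕ B, Matrix (Fin (Sum.elim r t c)) (Fin (Sum.elim s t c)) L,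
    ∀ c i j, N c i j = aeval x (H ⟨c, (i, j)⟩) := ⟨fun c => Matrix.of fun i j =>
      aeval x (H ⟨c, (i, j)⟩), fun _ _ _ => rfl⟩
  have hNa : ∀ a, (N (Sum.inl a)).rank = rk (M a) x := by
    intro a
    unfold rk
    congr 1
    ext i j
    rw [hN, hHa]
    rfl
  have hNb : ∀ b, N (Sum.inr b) = (Matrix.of fun i j => aeval x (G b i j) :
      Matrix (Fin (t b)) (Fin (t b)) L) := by
    intro b
    ext i j
    rw [hN, hHb]
    rfl
  have hdet : ∀ b, (Matrix.of fun i j => aeval x (G b i j) :
      Matrix (Fin (t b)) (Fin (t b)) L).det = aeval x (G b).det := by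
    intro b
    have := AlgHom.map_det (aeval x : MvPolynomial (Fin (n + 1)) F →ₐ[F] L) (G b)
    rw [this]
    rfl
  have hrk : ∀ b, aeval x (G b).det ≠ 0 → rk (G b) x = t b := by
    intro b hb
    rw [← hdet] at hb
    unfold rk
    rw [Matrix.rank_of_isUnit _ ((Matrix.isUnit_iff_isUnit_det _).2 (isUnit_iff_ne_zero.2 hb)),
      Fintype.card_fin]
  have hNr : ∀ b, (N (Sum.inr b)).rank = rk (G b) x := by
    intro b
    unfold rk
    rw [← hNb]
    rfl
  have key := hC L x hx hxV N hN
    ((Finset.univ.filter fun b => aeval x (G b).det ≠ 0).map ⟨Sum.inr, Sum.inr_injective⟩)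
    (Sum.elim (fun _ => 1) (fun b => aeval x (G b).det)) (by
      intro c hc
      rw [Finset.mem_map] at hc
      obtain ⟨b, hb, rfl⟩ := hc
      rw [Finset.mem_filter] at hb
      have h1 := (hNr b).trans (hrk b hb.2)
      exact ⟨h1.trans (hcF (t b) _).symm, h1.trans (hcF (t b) _).symm⟩) (by
      intro c hc P ρ0 r0 s0 α0 β0 hr hs h
      rw [Finset.mem_map] at hc
      obtain ⟨b, hb, rfl⟩ := hc
      rw [Finset.mem_filter] at hb
      subst hr hs
      have h1 := ord_mna_sq P (Matrix.of fun i j => aeval x (G b i j) :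
        Matrix (Fin (t b)) (Fin (t b)) L) α0 β0 (by
        rw [hdet]
        exact hb.2)
      rw [hdet] at h1
      exact (congrArg (fun Z : Matrix (Fin (t b)) (Fin (t b)) L =>
        P.ord (Pool.Agent.T6.H19.DV.mna Z α0 β0)) (hNb b)).trans h1)
  rw [Fintype.sum_sum_type, Finset.sum_map] at key
  have e1 : ∀ a : A, (((Fintype.card (Fin (Sum.elim s t (Sum.inl a))) - (N (Sum.inl a)).rank) *
      (Sum.elim d e (Sum.inl a) * Fintype.card (Fin (Sum.elim r t (Sum.inl a))) +
        (Fintype.card (Fin (Sum.elim r t (Sum.inl a))) - (N (Sum.inl a)).rank)) : ℕ) : ℤ) =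
      wt (r a) (s a) (d a) (rk (M a) x) := by
    intro a
    rw [hNa, Fintype.card_fin, Fintype.card_fin]
    unfold wt
    simp only [Sum.elim_inl]
    rw [mul_comm (d a)]
  have e2 : ∀ b : B, (((Fintype.card (Fin (Sum.elim s t (Sum.inr b))) - (N (Sum.inr b)).rank) *
      (Sum.elim d e (Sum.inr b) * Fintype.card (Fin (Sum.elim r t (Sum.inr b))) +
        (Fintype.card (Fin (Sum.elim r t (Sum.inr b))) - (N (Sum.inr b)).rank)) : ℕ) : ℤ) =
      wt (t b) (t b) (e b) (rk (G b) x) := by
    intro b
    rw [hNr, Fintype.card_fin, Fintype.card_fin]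
    unfold wt
    simp only [Sum.elim_inr]
    rw [mul_comm (e b)]
  simp only [e1, e2] at key
  have e3 : ∑ b with aeval x (G b).det ≠ 0, (((Sum.elim d e
      ((⟨Sum.inr, Sum.inr_injective⟩ : B ↪ A ⊕ B) b) * Fintype.card (Fin (Sum.elim r t
        ((⟨Sum.inr, Sum.inr_injective⟩ : B ↪ A ⊕ B) b))) : ℕ)) : ℤ) =
      ∑ b, if aeval x (G b).det = 0 then (0 : ℤ) else t b * e b := by
    rw [Finset.sum_filter]
    refine Finset.sum_congr rfl fun b _ => ?_
    by_cases h : aeval x (G b).det = 0
    · rw [if_neg (not_not.2 h), if_pos h]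
    · rw [if_pos h, if_neg h, Fintype.card_fin]
      simp only [Function.Embedding.coeFn_mk, Sum.elim_inr]
      push_cast
      ring
  have e4 : ∑ b, (wt (t b) (t b) (e b) (rk (G b) x) : ℤ) +
      ∑ b, (if aeval x (G b).det = 0 then (0 : ℤ) else t b * e b) =
      ∑ b, (if aeval x (G b).det = 0 then (wt (t b) (t b) (e b) (rk (G b) x) : ℤ)
          else t b * e b) := by
    rw [← Finset.sum_add_distrib]
    refine Finset.sum_congr rfl fun b _ => ?_
    by_cases h : aeval x (G b).det = 0
    · rw [if_pos h, if_pos h, add_zero]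
    · rw [if_neg h, if_neg h, hrk b h]
      unfold wt
      rw [Nat.sub_self, zero_mul, Nat.cast_zero, zero_add]
  have e5 : {P : Place k L | ∃ c ∈ (Finset.univ.filter fun b => aeval x (G b).det ≠ 0).map
      (⟨Sum.inr, Sum.inr_injective⟩ : B ↪ A ⊕ B), ((Sum.elim d e c *
        Fintype.card (Fin (Sum.elim r t c)) : ℕ) : ℤ) * pord P x <
          P.ord ((Sum.elim (fun _ => 1) (fun b => aeval x (G b).det) : A ⊕ B → L) c)} =
      meetsAny (k := k) (fun b : {b // aeval x (G b).det ≠ 0} => (G b).det)
        (fun b => t b * e b) x := by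
    ext P
    constructor
    · rintro ⟨c, hc, h⟩
      rw [Finset.mem_map] at hc
      obtain ⟨b, hb, rfl⟩ := hc
      rw [Finset.mem_filter] at hb
      refine ⟨⟨b, hb.2⟩, ?_⟩
      rw [Fintype.card_fin] at h
      simp only [Function.Embedding.coeFn_mk, Sum.elim_inr] at h
      rw [mul_comm (e b) (t b)] at h
      exact h
    · rintro ⟨⟨b, hb⟩, h⟩
      refine ⟨Sum.inr b, Finset.mem_map.2 ⟨b, Finset.mem_filter.2 ⟨Finset.mem_univ _, hb⟩, rfl⟩, ?_⟩
      rw [Fintype.card_fin]
      simp only [Sum.elim_inr]
      rw [mul_comm (e b) (t b)]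
      exact h
  rw [e3, e5, add_assoc, e4] at key
  exact key

end Pool.Agent.Results.MP_4dacf8_ag.DeterminantalPairs
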