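import Pool.Agent.T6.H19.PB.Vojta

/-!
MP_4dacf8_ag, Q1: Vojta's height inequality with constant one, for all algebraic points on the
preimages of arbitrary projective varieties under generic maps.

Let `F` be the function field of a curve over an algebraically closed field `k` of characteristic
zero, and let `F0` be a subfield of `F` that is finitely generated over a subfield `k0` of `k`. Let
`V` be any projective variety over `F0` of dimension at most `m`, and let `H = (H 0 : ... : H N)` be
the rational map from `V` to projective `N`-space that is given by forms `H a` of the same degree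
`d` over `F`, and `G b`, for `b` in a finite set `β`, further forms over `F`, of degrees `e b`. The
coefficients of all the forms `H a` and `G b` together are algebraically independent over `F0`. For
example, `k0` is countable, `k` is the field of the complex numbers, and the forms are very general.

Then there is a constant `C` such that, for every closed subset `Z` over `F0` of projective `N`-space
(arbitrary singularities, not necessarily irreducible or equidimensional, and `C` does not depend on
`Z`) of dimension at most `q`, all finite extensions `L` of `F` and all points `x` of `V` over `L`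
with `H x ∈ Z` or `H x = 0`,

`((N - q) (d + 1) + Σ e b + z - 2 m - 1) h(x) ≤ N1(x) + 2 g(L) - 2 + C [L : F]`,

where `h(x)` is the height of `x` relative to `L`, `z` is the number of forms `G b` that vanish at
`x`, `N1(x)` is the number of places of `L` at which `x` meets one of the other hypersurfaces
`G b = 0`, each place being counted once, and `2 g(L) - 2` is the canonical degree of `L`.

Hence the inequality of Q1 holds, without exceptional points, for `X` the preimage of `Z` in `V`,
intersected with `G b = 0` for `b ∈ E`, and `D` the boundary `G b = 0` for some `b ∉ E`, as soon as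
`(N - q) (d + 1) + Σ e b + #E ≥ 2 m + 2`. Here `N - q` is the codimension of `Z`, and `X` is in
general not a complete intersection.
-/

set_option autoImplicit false

namespace Pool.Agent.Results.MP_4dacf8_ag.GenericPreimages

open FF MvPolynomial Pool.Agent.W603.LV Pool.Agent.W603.PV Pool.Agent.W603.CZ
  Pool.Agent.TH145.MG

/-- The field `F0` is finitely generated over `k0`. -/
def FinGen (k0 F0 : Type) [Field k0] [Field F0] [Algebra k0 F0] : Prop :=
  ∃ S : Finset F0, IntermediateField.adjoin k0 (S : Set F0) = ⊤

/-- Forms of degrees `d a` whose coefficients are algebraically independent over `F0`. -/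
def Generic {F A : Type} (F0 : Type) [Field F0] [Field F] [Algebra F0 F] {n : ℕ}
    (H : A → MvPolynomial (Fin (n + 1)) F) (d : A → ℕ) : Prop :=
  (∀ a, (H a).IsHomogeneous (d a)) ∧
    AlgebraicIndependent F0 fun p : (a : A) × {I : Fin (n + 1) →₀ ℕ // I.degree = d a} =>
      (H p.1).coeff p.2.1

/-- The point `x` with coordinates in the field `L` satisfies the equations `f = 0`, `f ∈ V`, with
coefficients in the subfield `F0`. -/
def On {F0 F L : Type} [Field F0] [Field F] [Field L] [Algebra F0 F] [Algebra F L] {n : ℕ}
    (V : Set (MvPolynomial (Fin (n + 1)) F0)) (x : Fin (n + 1) → L) : Prop :=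
  ∀ f ∈ V, aeval x (map (algebraMap F0 F) f) = 0

theorem result {k0 k F0 F : Type} [Field k0] [Field k] [Field F0] [Field F] [IsAlgClosed k]
    [CharZero k] [Algebra k0 k] [Algebra k F] [Algebra k0 F] [IsScalarTower k0 k F]
    [Algebra k0 F0] [Algebra F0 F] [IsScalarTower k0 F0 F] [IsFF k F] (hfg : FinGen k0 F0)
    {n m N d : ℕ} (V : Set (MvPolynomial (Fin (n + 1)) F0)) (hV : DimLE F0 V m)
    -- the generic map, and the other generic forms
    (H : Fin (N + 1) → MvPolynomial (Fin (n + 1)) F) {β : Type} [Fintype β]
    (G : β → MvPolynomial (Fin (n + 1)) F) (e : β → ℕ)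
    (hgen : Generic F0 (Sum.elim H G) (Sum.elim (fun _ => d) e)) :
    ∃ C : ℕ, ∀ (q : ℕ) (Z : Set (MvPolynomial (Fin (N + 1)) F0)), DimLE F0 Z q →
      ∀ (L : Type) [Field L] [Algebra k L] [Algebra F L] [IsScalarTower k F L]
        [FiniteDimensional F L] (x : Fin (n + 1) → L), x ≠ 0 → On (F := F) V x →
        -- the image of `x` is on `Z`, or all forms `H a` vanish at `x`
        ((On (F := F) Z fun a => aeval x (H a)) ∨ ∀ a, aeval x (H a) = 0) →
        (((N : ℤ) - q) * (d + 1) + ∑ b, (e b : ℤ) + {b | aeval x (G b) = 0}.ncard - 2 * m - 1) *
            pht k x ≤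
          (meetsAny (k := k) (fun b : {b // aeval x (G b) ≠ 0} => G b) (fun b => e b) x).ncard +
            canDeg k L + C * Module.finrank F L := by
  obtain ⟨C, hC⟩ := Pool.Agent.T6.H19.PB.vojta_pull (k0 := k0) (k := k) hfg V hV (Sum.elim H G)
    (Sum.elim (fun _ => d) e) (dd := d) (fun _ => rfl) hgen.1 hgen.2
  refine ⟨C, fun q Z hZ L _ _ _ _ _ x hx hxV hxZ => ?_⟩
  refine hC q L x hx hxV ?_
  intro _ hne
  refine hZ L _ hne fun f hf => ?_
  rcases hxZ with h | h
  · have h1 := h f hf
    rw [Pool.Agent.TH812.GV.aeval_eq_eval_map, map_map, eval_map] at h1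
    rw [aeval_def]
    exact h1
  · exact absurd (funext h) hne

end Pool.Agent.Results.MP_4dacf8_ag.GenericPreimages
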