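import Pool.Agent.T6.H20.FV.AllLines

/-!
MP_4dacf8_ag, Q1: Vojta's height inequality over function fields for all closed subvarieties of the
projective varieties which are given by sums of few high powers of linear forms and contain no
planes, with boundary divisors of the same kind, and for all points of them: the exceptional points
are the points of the lines which meet the boundary in at most two points.

`F` is a function field of one variable over the algebraically closed field `k` of characteristic
zero. `IsPowSum (Fs i) s N` (`Pool/Agent/W603/PV/War.lean`): `Fs i` is the sum of `s` terms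
`c ℓ ^ N`, where `c` is a nonzero constant of `F` and `ℓ` is a linear form over `F`. `HasPlane`: the
variety `Y = {Fs = 0}` contains a two-dimensional linear space, over the algebraic closure of `F`.
`D` is the union of the divisors `Q j = 0`; `X = {Φ = 0}` is an arbitrary closed subset of `Y`: the
equations of `Y` are among those of `X`. `pht k f`: the height relative to `L`; `canDeg k L`:
`2 g(L) - 2`; `meetsAny Q q f`: the places of `L` at which the point `f` meets `D`.
`OnLine Φ Q q L f`: through the point `f` there is a line in `X` which meets `D` in at most two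
points; `HasPuncturedLine p Q q`: the same for the generic point of the variety of `p`.
-/

set_option autoImplicit false

namespace Pool.Agent.Results.MP_4dacf8_ag.LinesInPowerSums

open FF MvPolynomial Pool.Agent.W603.LV Pool.Agent.W603.PV Pool.Agent.W603.CZ
open Pool.Agent.W602.GT (IsForm)
open Pool.Agent.W603.CZ (hom_powW)
open Pool.Agent.T6.H20 Pool.Agent.T6.H20.FV

/-- `f` is a point of `X = {Φ = 0}` over `L` outside of the divisors `Q j = 0`. -/
def PtOff {F : Type} [Field F] {n : ℕ} {ι κ : Type} (Φ : ι → MvPolynomial (Fin (n + 1)) F)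
    (Q : κ → MvPolynomial (Fin (n + 1)) F) (L : Type) [Field L] [Algebra F L]
    (f : Fin (n + 1) → L) : Prop :=
  f ≠ 0 ∧ (∀ e, aeval f (Φ e) = 0) ∧ ∀ j, aeval f (Q j) ≠ 0

/-- Let `Y`, `D` and `X` be as above, where `Y` contains no plane, the forms `Fs i` are sums of `s`
powers of degree `N ≥ (s - 1) ^ 2` and the forms `Q j` are sums of `r` powers of degree
`q j ≥ r ^ 2`.

(1) There are `B`, `C` such that for all finite extensions `L` of `F` and all points `f` of `X` over
`L` outside of `D` there is a line in `X` through `f` which meets `D` in at most two points, or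
`h(f) ≤ B (2 g(L) - 2 + N1(f)) + C [L : F]`, where `N1(f)` is the number of the places of `L` at
which `f` meets `D`.

(2) This inequality holds for all points of `X` outside of `D` (with some `B`, `C`) if and only if
no point of `X` over a finite extension of `F` outside of `D` is on such a line.

(3) Let `V` be an irreducible closed subvariety of `X` which is not contained in `D`, with
homogeneous prime ideal `p`. The inequality holds, with some `B`, `C`, for all points of `V` outside
of `D` and of some proper closed subset of `V` if and only if the generic point of `V` is on no line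
in `V` which meets `D` in at most two points. -/
theorem result {k F : Type} [Field k] [IsAlgClosed k] [CharZero k] [Field F] [Algebra k F]
    [IsFF k F] {n : ℕ} {ι ι' κ : Type} [Finite κ] (Fs : ι → MvPolynomial (Fin (n + 1)) F)
    (hF : ∀ i, ∃ s N : ℕ, 0 < N ∧ (s - 1) ^ 2 ≤ N ∧ IsPowSum (Fs i) s N)
    (hpl : ¬ LS.HasPlane fun i => map (algebraMap F (AlgebraicClosure F)) (Fs i))
    (Q : κ → MvPolynomial (Fin (n + 1)) F) (q : κ → ℕ)
    (hQ : ∀ j, ∃ r : ℕ, 0 < q j ∧ r ^ 2 ≤ q j ∧ IsPowSum (Q j) r (q j))
    (Φ : ι' → MvPolynomial (Fin (n + 1)) F) (hΦ : ∀ e, IsForm (Φ e))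
    (hsub : Set.range Fs ⊆ Set.range Φ) :
    (∃ B C : ℕ, ∀ (L : Type) [Field L] [Algebra k L] [Algebra F L] [IsScalarTower k F L]
      [FiniteDimensional F L] (f : Fin (n + 1) → L), PtOff Φ Q L f → OnLine Φ Q q L f ∨
        pht k f ≤ B * (canDeg k L + (meetsAny (k := k) Q q f).ncard) +
          C * Module.finrank F L) ∧
    ((∃ B C : ℕ, ∀ (L : Type) [Field L] [Algebra k L] [Algebra F L] [IsScalarTower k F L]
      [FiniteDimensional F L] (f : Fin (n + 1) → L), PtOff Φ Q L f →
        pht k f ≤ B * (canDeg k L + (meetsAny (k := k) Q q f).ncard) +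
          C * Module.finrank F L) ↔
      ∀ (L : Type) [Field L] [Algebra k L] [Algebra F L] [IsScalarTower k F L]
        [FiniteDimensional F L] (f : Fin (n + 1) → L), PtOff Φ Q L f → ¬ OnLine Φ Q q L f) ∧
    ∀ p : Ideal (MvPolynomial (Fin (n + 1)) F), p.IsPrime →
      (∀ H ∈ p, ∀ d, homogeneousComponent d H ∈ p) → (∀ e, Φ e ∈ p) → (∃ j, X j ∉ p) →
      (∀ j, Q j ∉ p) →
      ((∃ (d : ℕ) (G : MvPolynomial (Fin (n + 1)) F), G.IsHomogeneous d ∧ G ∉ p ∧
        ∃ B C : ℕ, ∀ (L : Type) [Field L] [Algebra k L] [Algebra F L] [IsScalarTower k F L]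
        [FiniteDimensional F L] (f : Fin (n + 1) → L), (∀ H ∈ p, aeval f H = 0) →
        aeval f G ≠ 0 → (∀ j, aeval f (Q j) ≠ 0) →
          pht k f ≤ B * (canDeg k L + (meetsAny (k := k) Q q f).ncard) +
            C * Module.finrank F L) ↔ ¬ HasPuncturedLine p Q q) := by
  haveI : CharZero F := Pool.Agent.R869.Wd.charZero_ext (k := k)
  have hQhom : ∀ j, (Q j).IsHomogeneous (q j) := by
    intro j
    obtain ⟨r, _, _, c, l, _, h⟩ := hQ j
    rw [h]
    exact hom_powW _ _
  have h1 : ∃ B C : ℕ, ∀ (L : Type) [Field L] [Algebra k L] [Algebra F L] [IsScalarTower k F L]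
      [FiniteDimensional F L] (f : Fin (n + 1) → L), PtOff Φ Q L f → OnLine Φ Q q L f ∨
        pht k f ≤ B * (canDeg k L + (meetsAny (k := k) Q q f).ncard) +
          C * Module.finrank F L := by
    obtain ⟨A, B, h⟩ := line_points (k := k) Fs hF Q q hQ hpl Φ hsub
      (Ideal.span (Set.range Φ)) fun e => Ideal.subset_span ⟨e, rfl⟩
    obtain ⟨c, hc⟩ := canDeg_bound (k := k) (F := F)
    refine ⟨A, B + A * c, fun L _ _ _ _ _ f hf => ?_⟩
    rcases h L f hf.1 hf.2.2 (by
      rw [Ideal.span_le]
      rintro _ ⟨e, rfl⟩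
      exact (form_mem_genI (hΦ e)).2 (hf.2.1 e)) with h1 | h1
    · exact Or.inl h1
    · right
      have h2 := hc L (meetsAny (k := k) Q q f).ncard
      have h3 := mul_le_mul_of_nonneg_left h2 (by positivity : (0 : ℤ) ≤ A)
      push_cast
      linarith
  refine ⟨h1, ⟨?_, ?_⟩, ?_⟩
  · rintro ⟨B, C, hBC⟩ L _ _ _ _ _ f hf hline
    obtain ⟨p, hp, hpΦ, ⟨l, hl⟩, hpQ, hpl⟩ := generic_line hΦ hQhom hf.2.2 hline
    refine fails_of_line (k := k) hQhom hpQ hpl ⟨1, X l, isHomogeneous_X _ _, hl, B, C,
      fun L _ _ _ _ _ f hf hfl hfQ => hBC L f ⟨?_, fun e => hf _ (hpΦ e), hfQ⟩⟩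
    rintro rfl
    rw [aeval_X] at hfl
    exact hfl rfl
  · intro hno
    obtain ⟨B, C, h⟩ := h1
    exact ⟨B, C, fun L _ _ _ _ _ f hf => (h L f hf).resolve_left (hno L f hf)⟩
  · intro p hp hom hpΦ hx hpQ
    constructor
    · intro h hline
      exact fails_of_line (k := k) hQhom hpQ hline h
    · intro hline
      obtain ⟨d, G, hGd, hG, -, B, C, h⟩ := sub_multi (k := k) Fs hF Q q hQ p hom
        (fun i => by
          obtain ⟨e, he⟩ := hsub ⟨i, rfl⟩
          rw [← he]
          exact hpΦ e) hpl hx hpQ hline
      exact ⟨d, G, hGd, hG, B, C, fun L _ _ _ _ _ f hf hfG _ => h L f hf hfG⟩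

end Pool.Agent.Results.MP_4dacf8_ag.LinesInPowerSums
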