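import Pool.Agent.T6.H20.FV.Comp

/-!
MP_4dacf8_ag, Q1: Vojta's height inequality over function fields for all closed subvarieties of the
(quasi-)projective varieties which are given by few monomials with large exponents and contain no
two-dimensional orbits of tori.

`F` is a function field of one variable over the algebraically closed field `k` of characteristic
zero, `Y = {Fs = 0, x_j ≠ 0 for j in U}`, where the exponents in the form `Fs i` over `F`, which has
`s` monomials, of the variables `x_j`, `j` not in `U`, are divisible by some `N ≥ (s - 1) ^ 2`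
(`HighPowers`, `Pool/Agent/W603/LV/Defs.lean`). `NoTorusSurface`: over the algebraic closure of `F`,
`Y` contains no two-dimensional orbit of a subtorus of the group of the diagonal matrices.
`X = {Φ = 0, x_j ≠ 0 for j in U}` is an arbitrary closed subvariety of `Y` (`Sub`).

`PtL U Φ L f`: `f` is a point of `X` over the extension `L` of `F`; `OnOrbit U Φ L f`: the orbit of
`f` under some diagonal one-parameter group is not a point and is contained in `X`. `pht k f`: the
height relative to `L`; `canDeg k L`: `2 g(L) - 2`; `cut k U f`: the places of `L` at which `f` meets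
the divisor `∑ (x_j = 0)`, the sum over the `j` in `U`. `SubVarU U Φ K w y`: `K` is the function
field, and `y` the generic point, of a closed subvariety `V` of `X` of dimension `w` (over the
algebraic closure of `F`); `VojtaV k F U A y`: Vojta's inequality with the slope `A` holds for the
points of `V` over the finite extensions of `F` outside of a proper closed subset; `Acts`: a diagonal
one-parameter group acts on `V`; `LogGeneralType`: `V` is of log general type.
-/

set_option autoImplicit false

namespace Pool.Agent.Results.MP_4dacf8_ag.TorusOrbits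

open FF MvPolynomial Pool.Agent.W602.GT Pool.Agent.W603.LV Pool.Agent.W603.PV
open Pool.Agent.R869.Wd Pool.Agent.T6.H20.TS Pool.Agent.T6.H20.FV

/-- Let `Y` and its closed subvariety `X` be as above.

(1) There are `A`, `B` such that for all finite extensions `L` of `F` and all points `f` of `X` over
`L` the orbit of `f` under some diagonal one-parameter group is not a point and is contained in `X`,
or `h(f) ≤ A (2 g(L) - 2 + N1(f)) + B [L : F]`, where `N1(f)` is the number of the places of `L` at
which `f` meets the boundary.

(2) This inequality holds for all points of `X` (with some `A`, `B`) if and only if no point of `X`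
over a finite extension of `F` is on such an orbit.

(3) Let `V` be a closed subvariety of `X`, over the algebraic closure of `F`, of positive dimension.
Vojta's inequality, with some slope, holds for the points of `V` outside of a proper closed subset
if and only if the diagonal one-parameter groups which act on `V` act trivially; so it does if `V` is
of log general type; and `V` is of log general type if it does and the exponents are large. -/
theorem result {k F : Type} [Field k] [IsAlgClosed k] [CharZero k] [Field F] [Algebra k F]
    [IsFF k F] {n : ℕ} {ι κ : Type} [Finite ι] (U : Finset (Fin (n + 1)))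
    (Fs : ι → MvPolynomial (Fin (n + 1)) F) (hF : ∀ i, IsForm (Fs i))
    (hC : ∀ i, Pool.Agent.W603.LV.HighPowers U (Fs i).support)
    (hnt : NoTorusSurface (U : Set (Fin (n + 1)))
      fun i => map (algebraMap F (AlgebraicClosure F)) (Fs i))
    (Φ : κ → MvPolynomial (Fin (n + 1)) F) (hΦ : ∀ e, IsForm (Φ e))
    (hsub : Sub (U : Set (Fin (n + 1))) Φ Fs) :
    (∃ A B : ℕ, ∀ (L : Type) [Field L] [Algebra k L] [Algebra F L] [IsScalarTower k F L]
      [FiniteDimensional F L] (f : Fin (n + 1) → L), PtL (U : Set (Fin (n + 1))) Φ L f →
        OnOrbit (U : Set (Fin (n + 1))) Φ L f ∨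
        pht k f ≤ A * (canDeg k L + (cut k (U : Set (Fin (n + 1))) f).ncard) +
          B * Module.finrank F L) ∧
    ((∃ A, Vojta k F (U : Set (Fin (n + 1))) A
        (fun L _ _ f => PtL (U : Set (Fin (n + 1))) Φ L f)) ↔
      ∀ (L : Type) [Field L] [Algebra k L] [Algebra F L] [IsScalarTower k F L]
        [FiniteDimensional F L] (f : Fin (n + 1) → L), PtL (U : Set (Fin (n + 1))) Φ L f →
        ¬ OnOrbit (U : Set (Fin (n + 1))) Φ L f) ∧
    ∀ (K : Type) [Field K] [Algebra (AlgebraicClosure F) K] (w : ℕ) (y : Fin (n + 1) → K),
      1 ≤ w → SubVarU (U : Set (Fin (n + 1)))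
        (fun e => map (algebraMap F (AlgebraicClosure F)) (Φ e)) K w y →
      ((∃ A, VojtaV k F (U : Set (Fin (n + 1))) A y) ↔
        ∀ b : Fin (n + 1) → ℤ, Acts (U : Set (Fin (n + 1))) (AlgebraicClosure F) y b →
          ∀ i i', y i ≠ 0 → y i' ≠ 0 → b i = b i') ∧
      (LogGeneralType (AlgebraicClosure F) K w (OffU (U : Set (Fin (n + 1))) y) →
        ∃ A, VojtaV k F (U : Set (Fin (n + 1))) A y) ∧
      ∀ s N : ℕ, (∀ i, IsPowSparse (U : Set (Fin (n + 1))) s N (Fs i)) →
        n * ((s + 1) * ((s - 1) * (s - 2) / 2)) ≤ N →
        (∃ A, VojtaV k F (U : Set (Fin (n + 1))) A y) →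
        LogGeneralType (AlgebraicClosure F) K w (OffU (U : Set (Fin (n + 1))) y) := by
  haveI : CharZero F := charZero_ext (k := k)
  have h1 := all_points (k := k) U Fs hF hC hnt hΦ hsub
  refine ⟨h1, ⟨?_, ?_⟩, ?_⟩
  · rintro ⟨A, hA⟩ L _ _ _ _ _ f hf
    exact no_orbit hA L f hf.unit
  · intro hno
    obtain ⟨A, B, h⟩ := h1
    exact ⟨A, B, fun L _ _ _ _ _ f hf => (h L f hf).resolve_left (hno L f hf)⟩
  · intro K _ _ w y hw hy
    have hact : (∃ A, VojtaV k F (U : Set (Fin (n + 1))) A y) ↔
        ∀ b : Fin (n + 1) → ℤ, Acts (U : Set (Fin (n + 1))) (AlgebraicClosure F) y b →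
          ∀ i i', y i ≠ 0 → y i' ≠ 0 → b i = b i' :=
      ⟨fun ⟨A, h⟩ b hb i i' hi hi' => acts_of_vojta hy.unit h b hb i i' hi hi',
        fun h => vojtaV U Fs hF hC hnt hΦ hsub hy h⟩
    refine ⟨hact, fun hgt => hact.2 fun b hb i i' hi hi' => ?_, fun s N hFs hN hV => ?_⟩
    · by_contra hne
      exact orb_not_gt hy.gen b hi hi' hne hy.unit (hom_of_acts hy.ne hy.unit hb) hgt
    · have htn : tn (s - 1) = (s - 1) * (s - 2) / 2 := by
        unfold tn
        rw [Fin.sum_univ_eq_sum_range (fun i => i), Finset.sum_range_id, Nat.sub_sub]
      refine (gt_iff (F := fun i => map (algebraMap F (AlgebraicClosure F)) (Fs i)) (s := s)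
        (N := N) (fun i => ?_) (by rw [htn]; exact hN) hnt hw (subvar_of hsub hy)).2 (hact.1 hV)
      obtain ⟨⟨d, hd⟩, hc, N', hN', hdiv⟩ := hFs i
      refine ⟨⟨d, hd.map _⟩, ?_, N', hN', ?_⟩
      · rw [support_ext]
        exact hc
      · rw [support_ext]
        exact hdiv

end Pool.Agent.Results.MP_4dacf8_ag.TorusOrbits
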